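import Mathlib
import Pool.Agent.U307.NIL.Stm

/-!
# Project NIL, package NULL (helper891)

In an irreducible representation of infinite dimension of a nilpotent group of class at most `s + 1`, all bounded
averages along a polynomial sequence tend to zero, by the polynomial mean ergodic theorem in class `s`, applied to
`ρ ⊗ ρ̄`.
-/

set_option autoImplicit false

open Filter Topology Finset
open scoped InnerProductSpace

namespace Pool.Agent.U891.NIL

open Pool.Agent.U307.NIL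

lemma sum_le {E K : Type*} [NormedAddCommGroup E] [InnerProductSpace ℂ E] [NormedAddCommGroup K]
    [InnerProductSpace ℂ K] (u : ℕ → K) (v : ℕ → E) (c : ℕ → ℂ) (hc : ∀ n, ‖c n‖ ≤ 1)
    (h : ∀ n m, ⟪v n, v m⟫_ℂ = ((‖⟪u n, u m⟫_ℂ‖ ^ 2 : ℝ) : ℂ)) (N : ℕ) :
    ‖∑ n ∈ range N, c n • u n‖ ^ 2 ≤ N * ‖∑ n ∈ range N, v n‖ := by
  have h1 : ‖∑ n ∈ range N, c n • u n‖ ^ 2 ≤ ∑ n ∈ range N, ∑ m ∈ range N, ‖⟪u n, u m⟫_ℂ‖ := by
    have e0 : ‖∑ n ∈ range N, c n • u n‖ ^ 2 =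
        ‖⟪∑ n ∈ range N, c n • u n, ∑ n ∈ range N, c n • u n⟫_ℂ‖ := by
      rw [inner_self_eq_norm_sq_to_K]
      simp
    rw [e0, sum_inner]
    refine (norm_sum_le _ _).trans (Finset.sum_le_sum fun n _ => ?_)
    rw [inner_sum]
    refine (norm_sum_le _ _).trans (Finset.sum_le_sum fun m _ => ?_)
    rw [inner_smul_left, inner_smul_right, norm_mul, norm_mul]
    have a1 : ‖(starRingEnd ℂ) (c n)‖ ≤ 1 := by simpa using hc n
    have a2 := hc m
    have a3 : 0 ≤ ‖⟪u n, u m⟫_ℂ‖ := norm_nonneg _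
    have a4 : ‖c m‖ * ‖⟪u n, u m⟫_ℂ‖ ≤ ‖⟪u n, u m⟫_ℂ‖ := mul_le_of_le_one_left a3 a2
    exact (mul_le_of_le_one_left (by positivity) a1).trans a4
  have h2 : ‖∑ n ∈ range N, v n‖ ^ 2 = ∑ n ∈ range N, ∑ m ∈ range N, ‖⟪u n, u m⟫_ℂ‖ ^ 2 := by
    have e0 : ((‖∑ n ∈ range N, v n‖ ^ 2 : ℝ) : ℂ) =
        ((∑ n ∈ range N, ∑ m ∈ range N, ‖⟪u n, u m⟫_ℂ‖ ^ 2 : ℝ) : ℂ) := by
      have e1 := inner_self_eq_norm_sq_to_K (𝕜 := ℂ) (∑ n ∈ range N, v n)
      rw [sum_inner] at e1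
      simp_rw [inner_sum, h] at e1
      push_cast at e1 ⊢
      exact e1.symm
    exact_mod_cast e0
  have h3 : (∑ n ∈ range N, ∑ m ∈ range N, ‖⟪u n, u m⟫_ℂ‖) ^ 2 ≤
      (N * ‖∑ n ∈ range N, v n‖) ^ 2 := by
    rw [mul_pow, h2, ← Finset.sum_product', ← Finset.sum_product']
    refine sq_sum_le_card_mul_sum_sq.trans (le_of_eq ?_)
    rw [Finset.card_product, card_range]
    push_cast
    ring
  have h4 : 0 ≤ (N : ℝ) * ‖∑ n ∈ range N, v n‖ := by positivity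
  exact h1.trans (le_of_sq_le_sq' h3 h4)
where
  le_of_sq_le_sq' {a b : ℝ} (h : a ^ 2 ≤ b ^ 2) (hb : 0 ≤ b) : a ≤ b := by
    nlinarith [abs_le_of_sq_le_sq h hb, le_abs_self a]

lemma av_le {E K : Type*} [NormedAddCommGroup E] [InnerProductSpace ℂ E] [NormedAddCommGroup K]
    [InnerProductSpace ℂ K] (u : ℕ → K) (v : ℕ → E) (c : ℕ → ℂ) (hc : ∀ n, ‖c n‖ ≤ 1)
    (h : ∀ n m, ⟪v n, v m⟫_ℂ = ((‖⟪u n, u m⟫_ℂ‖ ^ 2 : ℝ) : ℂ)) (N : ℕ) :
    ‖av (fun n => c n • u n) N‖ ^ 2 ≤ ‖av v N‖ := by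
  unfold av
  rcases Nat.eq_zero_or_pos N with rfl | hN
  · simp
  have h1 := sum_le u v c hc h N
  have hN' : (0 : ℝ) < N := by exact_mod_cast hN
  rw [norm_smul, norm_smul, norm_inv, Complex.norm_natCast, mul_pow]
  calc ((N : ℝ)⁻¹) ^ 2 * ‖∑ n ∈ range N, c n • u n‖ ^ 2
      ≤ ((N : ℝ)⁻¹) ^ 2 * (N * ‖∑ n ∈ range N, v n‖) := by gcongr
    _ = (N : ℝ)⁻¹ * ‖∑ n ∈ range N, v n‖ := by field_simp

lemma iter_comp {M G : Type} [Group M] [Group G] (f : M →* G) (k : ℕ → M) (K : ℕ) :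
    D^[K] (fun n => f (k n)) = fun n => f ((D^[K] k) n) := by
  induction K generalizing k with
  | zero => rfl
  | succ K ih =>
    rw [Function.iterate_succ_apply, Function.iterate_succ_apply]
    have : D (fun n => f (k n)) = fun n => f (D k n) := by
      funext n
      simp [D]
    rw [this, ih]

lemma seq_quot {M : Type} [Group M] (k : ℕ → M) (s : ℕ) (hk : Seq M k (s + 1)) :
    Seq (M ⧸ Subgroup.center M) (fun n => QuotientGroup.mk' (Subgroup.center M) (k n)) s where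
  zero := by rw [hk.zero, map_one]
  diff := by
    obtain ⟨K, hK⟩ := hk.diff
    refine ⟨K, ?_⟩
    rw [iter_comp, hK]
    funext n
    simp
  gen := by
    have h1 : Set.range (fun n => QuotientGroup.mk' (Subgroup.center M) (k n)) =
        (QuotientGroup.mk' (Subgroup.center M)) '' Set.range k := by
      rw [← Set.range_comp]
      rfl
    rw [h1, ← MonoidHom.map_closure, hk.gen]
    exact Subgroup.map_top_of_surjective _ (QuotientGroup.mk'_surjective _)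
  cls := by
    have h1 := Subgroup.comap_upperCentralSeries_quotient_center (G := M) s
    rw [show s.succ = s + 1 from rfl, hk.cls] at h1
    rw [eq_top_iff]
    intro x _
    obtain ⟨y, rfl⟩ := QuotientGroup.mk'_surjective (Subgroup.center M) x
    have h2 : y ∈ Subgroup.comap (QuotientGroup.mk' (Subgroup.center M))
        (Subgroup.upperCentralSeries (M ⧸ Subgroup.center M) s) := by
      rw [h1]
      trivial
    exact h2

lemma mem_Pw_quot {M : Type} [Group M] {r : ℕ} {x : M} (hx : x ∈ Pw M r) :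
    QuotientGroup.mk' (Subgroup.center M) x ∈ Pw (M ⧸ Subgroup.center M) r := by
  unfold Pw at hx ⊢
  have h1 : QuotientGroup.mk' (Subgroup.center M) x ∈
      (Subgroup.closure {x | ∃ g : M, x = g ^ r}).map (QuotientGroup.mk' (Subgroup.center M)) :=
    ⟨x, hx, rfl⟩
  rw [MonoidHom.map_closure] at h1
  refine Subgroup.closure_mono ?_ h1
  rintro _ ⟨_, ⟨g, rfl⟩, rfl⟩
  exact ⟨QuotientGroup.mk' (Subgroup.center M) g, by rw [map_pow]⟩

theorem t_NULL : S_TEN → S_CPT → S_FIN → ∀ s, S_POLY s → S_NULL (s + 1) := by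
  intro hTEN hCPT hFIN s hPOLY M _ k hk K _ _ _ ρ hirr hinf c hc ξ
  obtain ⟨E, _, _, _, τ, Z, X, hT1, hT2, hT3, hT4, hT5⟩ := hTEN M K ρ
  have hcen : Subgroup.center M ≤ τ.ker := by
    intro z hz
    rw [MonoidHom.mem_ker]
    apply hT2
    have h0 := hirr ((ρ z).toContinuousLinearEquiv : K →L[ℂ] K) (by
      intro x h
      show ρ z (ρ x h) = ρ x (ρ z h)
      have h1 : z * x = x * z := ((Subgroup.mem_center_iff.1 hz) x).symm
      have h2 : (ρ (z * x)) h = (ρ (x * z)) h := by rw [h1]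
      rw [map_mul, map_mul] at h2
      exact h2)
    exact h0
  let τ' : (M ⧸ Subgroup.center M) →* (E ≃ₗᵢ[ℂ] E) :=
    QuotientGroup.lift (Subgroup.center M) τ (fun z hz => MonoidHom.mem_ker.1 (hcen hz))
  have hτ' : ∀ x : M, τ' (QuotientGroup.mk' (Subgroup.center M) x) = τ x := by
    intro x
    rfl
  have hpoly := hPOLY (M ⧸ Subgroup.center M) (fun n => QuotientGroup.mk' (Subgroup.center M) (k n))
    (seq_quot k s hk) E τ' (Z ξ) (by
      intro r hr ζ hζ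
      apply hT5
      obtain ⟨hn, hf⟩ := hFIN M k (s + 1) hk r hr
      refine hCPT M (Pw M r) hn hf K ρ hirr hinf (X ζ) (hT3 ζ) ?_
      intro x hx h
      refine hT4 ζ x ?_ h
      rw [← hτ' x]
      exact hζ _ (mem_Pw_quot hx))
  simp only [hτ'] at hpoly
  have hle : ∀ N, ‖av (fun n => c n • ρ (k n) ξ) N‖ ^ 2 ≤ ‖av (fun n => τ (k n) (Z ξ)) N‖ :=
    fun N => av_le (fun n => ρ (k n) ξ) (fun n => τ (k n) (Z ξ)) c hc (fun n m => hT1 _ _ _) N
  have h1 : Tendsto (fun N => ‖av (fun n => c n • ρ (k n) ξ) N‖ ^ 2) atTop (𝓝 0) :=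
    squeeze_zero (fun N => by positivity) hle (by simpa using hpoly.norm)
  have h2 : Tendsto (fun N => Real.sqrt (‖av (fun n => c n • ρ (k n) ξ) N‖ ^ 2)) atTop (𝓝 (Real.sqrt 0)) :=
    (Real.continuous_sqrt.tendsto 0).comp h1
  rw [Real.sqrt_zero] at h2
  rw [tendsto_zero_iff_norm_tendsto_zero]
  refine h2.congr fun N => ?_
  rw [Real.sqrt_sq (norm_nonneg _)]

end Pool.Agent.U891.NIL
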